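import Pool.Agent.Q23.CN.Imag
import Pool.Agent.Q23.HS.Wsum

/-!
# Consequences of the class number formula for the half range
-/

set_option autoImplicit false
set_option linter.unusedSectionVars false
set_option linter.unusedVariables false

namespace Pool.Agent.Q23.CN

open Finset NumberField
open Pool.Agent.Q23.LD Pool.Agent.Q23.HS

variable {p : ℕ} [Fact p.Prime]

lemma val_ix {n : ℕ} (hp : p = 2 * n + 1) (k : Fin n) : (ix p n k).val = (k : ℕ) + 1 := by
  have := k.2
  rw [ix_eq, ZMod.val_natCast_of_lt (by omega)]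

lemma val_neg_ix {n : ℕ} (hp : p = 2 * n + 1) (k : Fin n) : (-ix p n k).val = p - ((k : ℕ) + 1) := by
  haveI : NeZero (ix p n k) := ⟨ix_ne hp k⟩
  rw [ZMod.val_neg_of_ne_zero, val_ix hp]

lemma val_two_ix {n : ℕ} (hp : p = 2 * n + 1) (k : Fin n) :
    (2 * ix p n k).val = 2 * ((k : ℕ) + 1) := by
  have := k.2
  have e : 2 * ix p n k = ((2 * ((k : ℕ) + 1) : ℕ) : ZMod p) := by
    rw [ix_eq]; push_cast; ring
  rw [e, ZMod.val_natCast_of_lt (by omega)]

lemma val_two_neg_ix {n : ℕ} (hp : p = 2 * n + 1) (k : Fin n) :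
    (2 * -ix p n k).val = p - 2 * ((k : ℕ) + 1) := by
  have hne : 2 * ix p n k ≠ 0 := by
    have := ix_add_ne hp k k
    rwa [← two_mul] at this
  haveI : NeZero (2 * ix p n k) := ⟨hne⟩
  have e : 2 * -ix p n k = -(2 * ix p n k) := by ring
  rw [e, ZMod.val_neg_of_ne_zero, val_two_ix hp]

/-- the relation of the half sum with the class number -/
theorem HH_class {n : ℕ} (hp : p = 2 * n + 1) (h4 : p % 4 = 3) (h7 : 7 ≤ p) (K : Type) [Field K]
    [NumberField K] (h2 : Module.finrank ℚ K = 2) (x : K) (hx : x ^ 2 = -(p : K)) :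
    HH p n = (2 - ch p 2) * (classNumber K : ℤ) := by
  have hcn := classNumber_mul h4 (by omega) K h2 x hx
  set h : ℤ := (classNumber K : ℤ) with hh
  set A : ℤ := ∑ k : Fin n, bb p n k * ((k : ℕ) + 1 : ℤ) with hA
  have hneg : ∀ k : Fin n, ch p (-ix p n k) = - ch p (ix p n k) := by
    intro k
    rw [ch_neg', ch_m1 h4]; ring
  have e1 : ∑ j : ZMod p, quadraticChar (ZMod p) j * (j.val : ℤ) = 2 * A - p * HH p n := by
    rw [sum_fold hp]
    simp only [MulChar.map_zero, zero_mul, zero_add]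
    rw [hA, HH, Finset.mul_sum, Finset.mul_sum, ← Finset.sum_sub_distrib]
    apply Finset.sum_congr rfl
    intro k _
    have hk := k.2
    have h3 : quadraticChar (ZMod p) (-ix p n k) = - ch p (ix p n k) := hneg k
    have h4 : quadraticChar (ZMod p) (ix p n k) = ch p (ix p n k) := rfl
    rw [h3, h4, val_ix hp, val_neg_ix hp, Nat.cast_sub (by omega), bb]
    push_cast
    ring
  have h20 : (2 : ZMod p) ≠ 0 := by
    have : ((2 : ℕ) : ZMod p) ≠ 0 := by
      rw [Ne, ZMod.natCast_eq_zero_iff]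
      intro h
      have := Nat.le_of_dvd (by norm_num) h
      omega
    simpa using this
  have e2 : ∑ j : ZMod p, quadraticChar (ZMod p) j * (j.val : ℤ) = ch p 2 * (4 * A - p * HH p n) := by
    have h3 : ∑ j : ZMod p, quadraticChar (ZMod p) j * (j.val : ℤ)
        = ∑ j : ZMod p, quadraticChar (ZMod p) (2 * j) * ((2 * j).val : ℤ) :=
      (Fintype.sum_bijective (fun t => 2 * t) (mulLeft_bijective₀ _ h20) _ _ (fun t => rfl)).symm
    rw [h3, sum_fold hp]
    simp only [mul_zero, MulChar.map_zero, zero_mul, zero_add]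
    rw [hA, HH, Finset.mul_sum, Finset.mul_sum, ← Finset.sum_sub_distrib, Finset.mul_sum]
    apply Finset.sum_congr rfl
    intro k _
    have hk := k.2
    have h3 : quadraticChar (ZMod p) (2 * -ix p n k) = - (ch p 2 * ch p (ix p n k)) := by
      have := ch_mul (p := p) 2 (-ix p n k)
      rw [hneg] at this
      have h5 : quadraticChar (ZMod p) (2 * -ix p n k) = ch p (2 * -ix p n k) := rfl
      rw [h5, this]; ring
    have h4 : quadraticChar (ZMod p) (2 * ix p n k) = ch p 2 * ch p (ix p n k) := ch_mul _ _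
    rw [h3, h4, val_two_ix hp, val_two_neg_ix hp, Nat.cast_sub (by omega), bb]
    push_cast
    ring
  have hp0 : (p : ℤ) ≠ 0 := by exact_mod_cast (Fact.out : p.Prime).ne_zero
  have hs := ch_sq h20
  apply mul_left_cancel₀ hp0
  have e3 : 2 * A - p * HH p n = -(h * p) := by rw [← e1]; linarith
  have e4 : 4 * A - p * HH p n = -(ch p 2 * (h * p)) := by
    have e5 : ch p 2 * (4 * A - p * HH p n) = -(h * p) := by rw [← e2]; linarith
    linear_combination (ch p 2) * e5 - (4 * A - p * HH p n) * hs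
  linear_combination e4 - 2 * e3

theorem odd_class {n : ℕ} (hp : p = 2 * n + 1) (h4 : p % 4 = 3) (h7 : 7 ≤ p) (K : Type) [Field K]
    [NumberField K] (h2 : Module.finrank ℚ K = 2) (x : K) (hx : x ^ 2 = -(p : K)) :
    Odd (classNumber K) ∧ ∏ t, bb p n t = (-1) ^ ((classNumber K + 1) / 2) := by
  have hH := HH_class hp h4 h7 K h2 x hx
  set h : ℕ := classNumber K with hh
  have hs := sum_sign (univ : Finset (Fin n)) (bb p n) (fun i _ => bb_sq hp i)
  have hps := prod_sign (univ : Finset (Fin n)) (bb p n) (fun i _ => bb_sq hp i)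
  rw [card_univ, Fintype.card_fin] at hs
  have hH' : ∑ i, bb p n i = HH p n := rfl
  rw [hH', hH] at hs
  set P := ∏ t, bb p n t with hP
  have hP1 : P = 1 ∨ P = -1 := by
    have : (P - 1) * (P + 1) = 0 := by linear_combination hps
    rcases mul_eq_zero.1 this with h | h
    · left; omega
    · right; omega
  have hc2 : (p % 8 = 7 ∧ ch p 2 = 1) ∨ (p % 8 = 3 ∧ ch p 2 = -1) := by
    rcases (show p % 8 = 3 ∨ p % 8 = 7 by omega) with h8 | h8
    · right
      refine ⟨h8, ?_⟩
      have h5 : ¬ IsSquare (2 : ZMod p) := by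
        rw [ZMod.exists_sq_eq_two_iff (by omega)]
        omega
      rw [ch, quadraticChar_neg_one_iff_not_isSquare]
      exact h5
    · left
      refine ⟨h8, ?_⟩
      have h5 : IsSquare (2 : ZMod p) := by
        rw [ZMod.exists_sq_eq_two_iff (by omega)]
        omega
      have h20 : (2 : ZMod p) ≠ 0 := by
        have : ((2 : ℕ) : ZMod p) ≠ 0 := by
          rw [Ne, ZMod.natCast_eq_zero_iff]
          intro h
          have := Nat.le_of_dvd (by norm_num) h
          omega
        simpa using this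
      rw [ch, quadraticChar_one_iff_isSquare h20]
      exact h5
  have key : ∀ t : ℕ, (h % 4 = 1 → t = (h + 1) / 2 → (-1 : ℤ) ^ t = -1) ∧
      (h % 4 = 3 → t = (h + 1) / 2 → (-1 : ℤ) ^ t = 1) := by
    intro t
    refine ⟨fun h1 ht => ?_, fun h1 ht => ?_⟩
    · have : Odd t := ⟨h / 4, by omega⟩
      exact this.neg_one_pow
    · have : Even t := ⟨(h + 1) / 4, by omega⟩
      exact this.neg_one_pow
  obtain ⟨k1, k3⟩ := key ((h + 1) / 2)
  have hmod : h % 4 = 0 ∨ h % 4 = 1 ∨ h % 4 = 2 ∨ h % 4 = 3 := by omega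
  rcases hc2 with ⟨h8, hc⟩ | ⟨h8, hc⟩
  · rw [hc] at hs
    rcases hP1 with h1 | h1 <;> rw [h1] at hs ⊢
    · have h3 : h % 4 = 3 := by omega
      exact ⟨by rw [Nat.odd_iff]; omega, (k3 h3 rfl).symm⟩
    · have h3 : h % 4 = 1 := by omega
      exact ⟨by rw [Nat.odd_iff]; omega, (k1 h3 rfl).symm⟩
  · rw [hc] at hs
    rcases hP1 with h1 | h1 <;> rw [h1] at hs ⊢
    · have h3 : h % 4 = 3 := by omega
      exact ⟨by rw [Nat.odd_iff]; omega, (k3 h3 rfl).symm⟩
    · have h3 : h % 4 = 1 := by omega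
      exact ⟨by rw [Nat.odd_iff]; omega, (k1 h3 rfl).symm⟩

end Pool.Agent.Q23.CN
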