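import Pool.Agent.Y797.FK.Disc

/-!
# Discriminants of quadratic fields of prime discriminant
-/

set_option autoImplicit false
set_option linter.unusedSectionVars false
set_option linter.unusedVariables false

namespace Pool.Agent.Q23.CN

open NumberField Finset Polynomial

variable {K : Type} [Field K] [NumberField K]

/-- the discriminant of `ℚ(√d)` for `d ≡ 1 mod 4` prime up to sign -/
theorem discr_eq (h2 : Module.finrank ℚ K = 2) {d : ℤ} (hd : Prime d) (hd4 : d % 4 = 1)
    (hns : ∀ q : ℚ, q ^ 2 ≠ d) {s : K} (hs : s ^ 2 = (d : K)) : discr K = d := by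
  -- α = (1 + s)/2
  obtain ⟨k, hk⟩ : ∃ k : ℤ, d = 4 * k + 1 := ⟨d / 4, by omega⟩
  have hint : IsIntegral ℤ ((1 + s) / 2) := by
    refine ⟨X ^ 2 - X - C k, ?_, ?_⟩
    · have : (X ^ 2 - X - C k : ℤ[X]) = X ^ 2 - (X + C k) := by ring
      rw [this]
      apply monic_X_pow_sub
      refine lt_of_le_of_lt (degree_X_add_C k).le ?_
      norm_num
    · simp only [eval₂_sub, eval₂_pow, eval₂_X, eval₂_C]
      have h4 : (algebraMap ℤ K) k = (k : K) := by simp
      rw [h4]
      have hd' : (d : K) = 4 * (k : K) + 1 := by rw [hk]; push_cast; ring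
      rw [hd'] at hs
      field_simp
      linear_combination hs
  set α : 𝓞 K := ⟨(1 + s) / 2, hint⟩ with hα
  have hαK : (2 : K) * (α : K) = 1 + s := by
    show (2 : K) * ((1 + s) / 2) = 1 + s
    field_simp
  obtain ⟨h1, m, hm⟩ := Pool.Agent.Y797.FK.quad_eq' h2 α
  set t := Algebra.trace ℤ (𝓞 K) α with ht
  have h3 := congrArg (algebraMap (𝓞 K) K) h1
  rw [map_pow, map_sub, map_mul, map_intCast, map_intCast] at h3
  have h3' : (2 * (α : K) - (t : K)) ^ 2 = (((t ^ 2 - 4 * Algebra.norm ℤ α : ℤ)) : K) := by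
    have h4 : (algebraMap (𝓞 K) K) 2 = 2 := map_ofNat _ 2
    rw [h4] at h3
    exact h3
  rw [hαK] at h3'
  have htc : t = 1 := by
    by_contra hne
    have hce : ((2 * (1 - t) : ℤ) : K) ≠ 0 := by
      have : (2 * (1 - t) : ℤ) ≠ 0 := by omega
      exact_mod_cast this
    have h5 : ((2 * (1 - t) : ℤ) : K) * s =
        ((t ^ 2 - 4 * Algebra.norm ℤ α - (1 - t) ^ 2 - d : ℤ) : K) := by
      push_cast at h3' ⊢
      linear_combination h3' - hs
    set q : ℚ := ((t ^ 2 - 4 * Algebra.norm ℤ α - (1 - t) ^ 2 - d : ℤ) : ℚ) /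
        ((2 * (1 - t) : ℤ) : ℚ) with hq
    have hsq : s = (q : K) := by
      rw [hq, Rat.cast_div, Rat.cast_intCast, Rat.cast_intCast, eq_div_iff hce, ← h5]
      ring
    apply hns q
    rw [hsq] at hs
    exact_mod_cast hs
  rw [htc] at h3' hm
  have h6 : ((d : ℤ) : K) = ((1 ^ 2 - 4 * Algebra.norm ℤ α : ℤ) : K) := by
    rw [← h3', ← hs]
    push_cast
    ring
  have h7 : d = m ^ 2 * discr K := by
    rw [← hm]
    exact_mod_cast h6
  have h8 : IsUnit m := by
    have hsf := hd.irreducible.squarefree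
    apply hsf m
    rw [← sq]
    exact ⟨_, h7⟩
  have h9 : m ^ 2 = 1 := by
    rcases Int.isUnit_iff.1 h8 with h | h <;> rw [h] <;> norm_num
  rw [h9, one_mul] at h7
  exact h7.symm

end Pool.Agent.Q23.CN
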