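import Pool.Agent.Y125.XT.Res
import Pool.Agent.Q23.CH.PP

/-!
# The residue of the zeta function of the quadratic field of prime discriminant
-/

set_option autoImplicit false
set_option linter.unusedSectionVars false
set_option linter.unusedVariables false
set_option linter.style.haveILetI false
set_option synthInstance.maxHeartbeats 400000

namespace Pool.Agent.Q23.CN

open Finset NumberField Polynomial
open Pool.Agent.Helper184.Chapman (chi chi_apply)
open Pool.Agent.Y682.XT (Lone S_RES)
open IntermediateField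

variable {p : ℕ} [Fact p.Prime]

/-- the quadratic character as a Dirichlet character -/
noncomputable def qc (p : ℕ) [Fact p.Prime] : DirichletCharacter ℂ p := chi p ℂ

lemma qc_apply (a : ZMod p) : qc p a = ((quadraticChar (ZMod p) a : ℤ) : ℂ) := rfl

lemma qc_ne_one (hp : p ≠ 2) : qc p ≠ 1 := by
  intro h
  obtain ⟨a, ha⟩ := quadraticChar_exists_neg_one (F := ZMod p) (by rw [ZMod.ringChar_zmod_n]; exact hp)
  have h1 : qc p a = -1 := by rw [qc_apply, ha]; norm_num
  have ha0 : a ≠ 0 := by
    rintro rfl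
    rw [quadraticChar_zero] at ha
    norm_num at ha
  rw [h, MulChar.one_apply (isUnit_iff_ne_zero.2 ha0)] at h1
  norm_num at h1

/-- the quadratic character is the only one of order two -/
lemma eq_qc (χ : DirichletCharacter ℂ p) (h2 : χ ^ 2 = 1) (h1 : χ ≠ 1) : χ = qc p := by
  have hsq : ∀ u : (ZMod p)ˣ, χ (u : ZMod p) * χ (u : ZMod p) = 1 := by
    intro u
    have := congrArg (fun f : DirichletCharacter ℂ p => f (u : ZMod p)) h2
    simp only [MulChar.pow_apply_coe, MulChar.one_apply_coe] at this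
    rw [← sq]; exact this
  have hpm : ∀ u : (ZMod p)ˣ, χ (u : ZMod p) = 1 ∨ χ (u : ZMod p) = -1 := by
    intro u
    have h3 : (χ (u : ZMod p) - 1) * (χ (u : ZMod p) + 1) = 0 := by linear_combination hsq u
    rcases mul_eq_zero.1 h3 with h4 | h4
    · left; linear_combination h4
    · right; linear_combination h4
  have hs : ∀ a : ZMod p, a ≠ 0 → IsSquare a → χ a = 1 := by
    rintro a ha ⟨b, rfl⟩
    have hb : b ≠ 0 := by rintro rfl; simp at ha
    have := hsq (Units.mk0 b hb)
    rw [Units.val_mk0] at this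
    rw [map_mul, this]
  obtain ⟨u0, hu0⟩ : ∃ u : (ZMod p)ˣ, χ (u : ZMod p) ≠ 1 := by
    by_contra h
    push Not at h
    apply h1
    ext u
    rw [h u, MulChar.one_apply_coe]
  have hu0' : χ (u0 : ZMod p) = -1 := (hpm u0).resolve_left hu0
  have hns0 : ¬ IsSquare (u0 : ZMod p) := fun h => hu0 (hs _ u0.ne_zero h)
  ext u
  rw [qc_apply]
  by_cases hsu : IsSquare (u : ZMod p)
  · rw [hs _ u.ne_zero hsu, (quadraticChar_one_iff_isSquare u.ne_zero).2 hsu]
    simp
  · have hq : quadraticChar (ZMod p) (u : ZMod p) = -1 := quadraticChar_neg_one_iff_not_isSquare.2 hsu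
    have hq0 : quadraticChar (ZMod p) (u0 : ZMod p) = -1 :=
      quadraticChar_neg_one_iff_not_isSquare.2 hns0
    have hm : quadraticChar (ZMod p) ((u : ZMod p) * u0) = 1 := by
      rw [map_mul, hq, hq0]; norm_num
    have hne : (u : ZMod p) * u0 ≠ 0 := mul_ne_zero u.ne_zero u0.ne_zero
    have h5 := hs _ hne ((quadraticChar_one_iff_isSquare hne).1 hm)
    rw [map_mul, hu0'] at h5
    rw [hq]
    push_cast
    linear_combination -h5

lemma cond_eq (χ : DirichletCharacter ℂ p) (h1 : χ ≠ 1) : χ.conductor = p := by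
  have hd := χ.conductor_dvd_level
  rcases (Nat.dvd_prime (Fact.out : p.Prime)).1 hd with h | h
  · exact absurd ((χ.eq_one_iff_conductor_eq_one).2 h) h1
  · exact h

lemma Lone_eq (χ : DirichletCharacter ℂ p) (h1 : χ ≠ 1) :
    Lone χ = DirichletCharacter.LFunction χ 1 := by
  haveI : NeZero χ.conductor := ⟨χ.conductor_ne_zero⟩
  have hc := cond_eq χ h1
  have hne : χ.primitiveCharacter ≠ 1 := by
    intro h
    apply h1
    rw [← χ.changeLevel_primitiveCharacter, h, map_one]
  have h := DirichletCharacter.LFunction_changeLevel χ.conductor_dvd_level χ.primitiveCharacter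
    (s := 1) (Or.inl hne)
  rw [χ.changeLevel_primitiveCharacter] at h
  rw [h, Lone]
  have hp : p.primeFactors = {p} := (Fact.out : p.Prime).primeFactors
  rw [hp, Finset.prod_singleton]
  have h0 : χ.primitiveCharacter (p : ZMod χ.conductor) = 0 := by
    have h3 : ((p : ℕ) : ZMod χ.conductor) = 0 := by
      rw [ZMod.natCast_eq_zero_iff, hc]
    rw [h3]
    apply MulChar.map_nonunit
    haveI : Nontrivial (ZMod χ.conductor) := by
      haveI : Fact (1 < χ.conductor) := ⟨by rw [hc]; exact (Fact.out : p.Prime).one_lt⟩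
      infer_instance
    exact not_isUnit_zero
  rw [h0]
  simp

section

variable (L : Type) [Field L] [NumberField L] [IsCyclotomicExtension {p} ℚ L]

theorem residue_eq (hp : p ≠ 2) (F : IntermediateField ℚ L) (h2 : Module.finrank ℚ F = 2) :
    (dedekindZeta_residue F : ℂ) = DirichletCharacter.LFunction (qc p) 1 := by
  haveI : NeZero p := ⟨(Fact.out : p.Prime).ne_zero⟩
  have hgal : IsGalois ℚ L := IsCyclotomicExtension.isGalois {p} ℚ L
  have hcard : Nat.card (H300.HW.YY p L F) = 2 := by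
    rw [H300.HW.card_YY, ← h2]
    exact (IntermediateField.finrank_eq_fixingSubgroup_index L F).symm
  have hall : ∀ χ : DirichletCharacter ℂ p, χ ∈ H300.HW.YY p L F → χ ≠ 1 → χ = qc p := by
    intro χ hχ h1
    apply eq_qc χ _ h1
    have h3 : (⟨χ, hχ⟩ : H300.HW.YY p L F) ^ 2 = 1 := by
      rw [← hcard]; exact pow_card_eq_one'
    have := congrArg Subtype.val h3
    simpa using this
  have hex : ∃ χ : DirichletCharacter ℂ p, χ ∈ H300.HW.YY p L F ∧ χ ≠ 1 := by
    haveI : Nontrivial (H300.HW.YY p L F) := by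
      apply (Finite.one_lt_card_iff_nontrivial (α := H300.HW.YY p L F)).1
      rw [hcard]; norm_num
    obtain ⟨x, hx⟩ := exists_ne (1 : H300.HW.YY p L F)
    exact ⟨x.1, x.2, fun h => hx (Subtype.ext h)⟩
  obtain ⟨χ0, hχ0, h10⟩ := hex
  have hq := hall χ0 hχ0 h10
  have h := Pool.Agent.Y125.XT.s_res p L F
  rw [h]
  rw [finprod_eq_single _ (⟨χ0, hχ0, h10⟩ : {χ : DirichletCharacter ℂ p // χ ∈ H300.HW.YY p L F ∧ χ ≠ 1})
    (fun x hx => absurd (Subtype.ext ((hall x.1 x.2.1 x.2.2).trans hq.symm)) hx)]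
  show Lone χ0 = _
  rw [hq, Lone_eq _ (qc_ne_one hp)]

end

/-- class numbers of isomorphic fields -/
lemma card_le {A B : Type*} [CommRing A] [IsDedekindDomain A] [CommRing B] [IsDedekindDomain B]
    (e : A ≃+* B) [Finite (ClassGroup B)] : Nat.card (ClassGroup A) ≤ Nat.card (ClassGroup B) := by
  choose I hI using (ClassGroup.mk0_surjective (R := A))
  have hmap : ∀ J : nonZeroDivisors (Ideal A), (J : Ideal A).map e ∈ nonZeroDivisors (Ideal B) := by
    intro J
    rw [mem_nonZeroDivisors_iff_ne_zero]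
    intro h
    have h1 : (J : Ideal A) = ⊥ := (Ideal.map_eq_bot_iff_of_injective e.injective).1 h
    exact nonZeroDivisors.coe_ne_zero J h1
  apply Nat.card_le_card_of_injective
    (fun c => ClassGroup.mk0 ⟨((I c : nonZeroDivisors (Ideal A)) : Ideal A).map e, hmap (I c)⟩)
  intro c c' h
  simp only at h
  rw [ClassGroup.mk0_eq_mk0_iff] at h
  obtain ⟨x, y, hx, hy, hxy⟩ := h
  rw [← hI c, ← hI c', ClassGroup.mk0_eq_mk0_iff]
  refine ⟨e.symm x, e.symm y, by simpa using hx, by simpa using hy, ?_⟩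
  have h2 := congrArg (Ideal.map (e.symm : B ≃+* A)) hxy
  rw [Ideal.map_mul, Ideal.map_mul, Ideal.map_span, Ideal.map_span, Set.image_singleton,
    Set.image_singleton] at h2
  have h3 : ∀ J : Ideal A, Ideal.map (e.symm : B ≃+* A) (Ideal.map (e : A ≃+* B) J) = J := by
    intro J
    exact Ideal.map_of_equiv e
  simp only [h3] at h2
  exact h2

theorem classNumber_eq {K F : Type*} [Field K] [NumberField K] [Field F] [NumberField F]
    (e : K ≃+* F) : classNumber K = classNumber F := by
  have e' : 𝓞 K ≃+* 𝓞 F := RingOfIntegers.mapRingEquiv e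
  unfold classNumber
  rw [← Nat.card_eq_fintype_card, ← Nat.card_eq_fintype_card]
  exact le_antisymm (card_le e') (card_le e'.symm)

lemma key_equiv (M : Type*) [Field M] [NumberField M] (hM : Module.finrank ℚ M = 2) (d : ℚ)
    (hd : ∀ b : ℚ, b ^ 2 ≠ d) (s : M) (hs : s ^ 2 = algebraMap ℚ M d) :
    Nonempty (M ≃+* AdjoinRoot (X ^ 2 - C d : ℚ[X])) := by
  have hirr : Irreducible (X ^ 2 - C d : ℚ[X]) :=
    (X_pow_sub_C_irreducible_iff_of_prime Nat.prime_two).2 hd
  have hmon : (X ^ 2 - C d : ℚ[X]).Monic := monic_X_pow_sub_C _ two_ne_zero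
  have hmin : minpoly ℚ s = X ^ 2 - C d := by
    refine (minpoly.eq_of_irreducible_of_monic hirr ?_ hmon).symm
    simp [hs]
  have hint : IsIntegral ℚ s := IsIntegral.of_finite ℚ s
  have htop : ℚ⟮s⟯ = ⊤ := by
    apply IntermediateField.eq_of_le_of_finrank_eq le_top
    rw [IntermediateField.finrank_top', hM, IntermediateField.adjoin.finrank hint, hmin,
      natDegree_X_pow_sub_C]
  have e1 := IntermediateField.adjoinRootEquivAdjoin ℚ hint
  rw [hmin] at e1
  have e2 : ℚ⟮s⟯ ≃ₐ[ℚ] (⊤ : IntermediateField ℚ M) := IntermediateField.equivOfEq htop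
  exact ⟨((e1.trans e2).trans IntermediateField.topEquiv).symm.toRingEquiv⟩

/-- quadratic fields with the same square roots are isomorphic -/
theorem exists_equiv {K F : Type*} [Field K] [NumberField K] [Field F] [NumberField F]
    (hK : Module.finrank ℚ K = 2) (hF : Module.finrank ℚ F = 2) (d : ℚ) (hd : ∀ b : ℚ, b ^ 2 ≠ d)
    (s : K) (hs : s ^ 2 = algebraMap ℚ K d) (t : F) (ht : t ^ 2 = algebraMap ℚ F d) :
    Nonempty (K ≃+* F) := by
  obtain ⟨e1⟩ := key_equiv K hK d hd s hs
  obtain ⟨e2⟩ := key_equiv F hF d hd t ht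
  exact ⟨e1.trans e2.symm⟩

end Pool.Agent.Q23.CN
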