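import Pool.Agent.Y797.FK.Disc

/-!
# The class number of `ℚ(√-p)` is a multiple of four for `p = 1 mod 8`
-/

set_option autoImplicit false
set_option linter.unusedSectionVars false
set_option linter.unusedVariables false

namespace Pool.Agent.Q23.CN

open NumberField Finset

/-- Thue's lemma -/
lemma thue (p : ℕ) [Fact p.Prime] (s : ZMod p) :
    ∃ u v : ℤ, (u ≠ 0 ∨ v ≠ 0) ∧ u ^ 2 < p ∧ v ^ 2 < p ∧ (u : ZMod p) = s * v := by
  have hpp : p.Prime := Fact.out
  set N := Nat.sqrt p with hN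
  have h1 : p < (N + 1) * (N + 1) := Nat.lt_succ_sqrt p
  have h2 : N * N < p := by
    rcases (Nat.sqrt_le p).lt_or_eq with h | h
    · exact h
    · exfalso
      have : ¬ p.Prime := by
        rw [← h]
        exact Nat.not_prime_mul (by
          intro h3
          rw [h3] at h
          exact hpp.one_lt.ne h) (by
          intro h3
          rw [h3] at h
          exact hpp.one_lt.ne h)
      exact this hpp
  obtain ⟨a, b, hab, hf⟩ : ∃ a b : Fin (N + 1) × Fin (N + 1), a ≠ b ∧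
      (((a.1 : ℕ) : ZMod p) - s * ((a.2 : ℕ) : ZMod p))
        = (((b.1 : ℕ) : ZMod p) - s * ((b.2 : ℕ) : ZMod p)) := by
    apply Fintype.exists_ne_map_eq_of_card_lt
      (fun a : Fin (N + 1) × Fin (N + 1) => (((a.1 : ℕ) : ZMod p) - s * ((a.2 : ℕ) : ZMod p)))
    rw [Fintype.card_prod, Fintype.card_fin, ZMod.card]
    exact h1
  have ha1 := a.1.2
  have ha2 := a.2.2
  have hb1 := b.1.2
  have hb2 := b.2.2
  have hsq : ∀ x y : ℕ, x < N + 1 → y < N + 1 → ((x : ℤ) - y) ^ 2 < p := by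
    intro x y hx hy
    have h3 : ((N * N : ℕ) : ℤ) < p := by exact_mod_cast h2
    push_cast at h3
    have hx' : (x : ℤ) ≤ N := by exact_mod_cast Nat.lt_succ_iff.1 hx
    have hy' : (y : ℤ) ≤ N := by exact_mod_cast Nat.lt_succ_iff.1 hy
    have hx0 : (0 : ℤ) ≤ x := by positivity
    have hy0 : (0 : ℤ) ≤ y := by positivity
    have : ((x : ℤ) - y) ^ 2 ≤ (N : ℤ) ^ 2 := by
      apply sq_le_sq'
      · linarith
      · linarith
    nlinarith
  refine ⟨((a.1 : ℕ) : ℤ) - ((b.1 : ℕ) : ℤ), ((a.2 : ℕ) : ℤ) - ((b.2 : ℕ) : ℤ), ?_, hsq _ _ ha1 hb1,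
    hsq _ _ ha2 hb2, ?_⟩
  · by_contra h
    push Not at h
    apply hab
    obtain ⟨h3, h4⟩ := h
    ext
    · have : ((a.1 : ℕ) : ℤ) = ((b.1 : ℕ) : ℤ) := by linarith
      exact_mod_cast this
    · have : ((a.2 : ℕ) : ℤ) = ((b.2 : ℕ) : ℤ) := by linarith
      exact_mod_cast this
  · push_cast
    linear_combination hf

lemma two_sq_ne {u v : ℤ} (h : u ≠ 0 ∨ v ≠ 0) : u ^ 2 ≠ 2 * v ^ 2 := by
  intro h2
  have hv : v ≠ 0 := by
    rintro rfl
    rcases h with h | h
    · apply h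
      have : u ^ 2 = 0 := by rw [h2]; ring
      exact pow_eq_zero_iff two_ne_zero |>.1 this
    · exact h rfl
  have h3 : Irrational (Real.sqrt 2) := irrational_sqrt_two
  apply h3
  refine ⟨|(u : ℚ) / v|, ?_⟩
  have hv' : (v : ℝ) ≠ 0 := by exact_mod_cast hv
  have h4 : ((u : ℝ) / v) ^ 2 = 2 := by
    rw [div_pow, div_eq_iff (by positivity)]
    exact_mod_cast h2
  rw [← h4, Real.sqrt_sq_eq_abs]
  push_cast
  rfl

lemma rep (p : ℕ) [Fact p.Prime] (h8 : p % 8 = 1) : ∃ x m : ℤ, x ^ 2 + p = 2 * m ^ 2 := by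
  have hs : IsSquare (2 : ZMod p) := by
    rw [ZMod.exists_sq_eq_two_iff (by omega)]
    omega
  obtain ⟨s, hs⟩ := hs
  obtain ⟨u, v, huv, hu, hv, h⟩ := thue p s
  have h1 : ((u ^ 2 - 2 * v ^ 2 : ℤ) : ZMod p) = 0 := by
    push_cast
    rw [h, hs]; ring
  rw [ZMod.intCast_zmod_eq_zero_iff_dvd] at h1
  obtain ⟨k, hk⟩ := h1
  have hp0 : (0 : ℤ) < p := by exact_mod_cast (Fact.out : p.Prime).pos
  have hk1 : k < 1 := by
    by_contra hk1
    push Not at hk1
    nlinarith [sq_nonneg v]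
  have hk2 : -2 < k := by
    by_contra hk2
    push Not at hk2
    nlinarith [sq_nonneg u]
  have hk0 : k ≠ 0 := by
    rintro rfl
    exact two_sq_ne huv (by linarith)
  have hk3 : k = -1 := by omega
  refine ⟨u, v, ?_⟩
  rw [hk3] at hk
  linarith

variable {K : Type} [Field K] [NumberField K]

theorem four_dvd_class (p : ℕ) [Fact p.Prime] (h8 : p % 8 = 1)
    (h2 : Module.finrank ℚ K = 2) (s0 : K) (hs0 : s0 ^ 2 = -(p : K)) : 4 ∣ classNumber K := by
  have hpp : p.Prime := Fact.out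
  obtain ⟨x, m, hxm⟩ := rep p h8
  obtain ⟨k, hk⟩ : ∃ k : ℕ, p = 8 * k + 1 := ⟨p / 8, by omega⟩
  have hk0 : k ≠ 0 := by rintro rfl; rw [hk] at hpp; exact Nat.not_prime_one hpp
  have hkz : (p : ℤ) = 8 * k + 1 := by exact_mod_cast hk
  -- the square root
  have hint : IsIntegral ℤ s0 := by
    refine ⟨Polynomial.X ^ 2 + Polynomial.C (p : ℤ), Polynomial.monic_X_pow_add_C _ two_ne_zero, ?_⟩
    simp [hs0]
  set s : 𝓞 K := ⟨s0, hint⟩ with hsdef
  have hs : s ^ 2 = -(p : 𝓞 K) := by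
    ext
    push_cast
    exact hs0
  have hpO : (p : 𝓞 K) = 8 * (k : 𝓞 K) + 1 := by exact_mod_cast congrArg (Nat.cast : ℕ → 𝓞 K) hk
  -- parity
  have hxodd : x % 2 = 1 := by
    rcases Int.emod_two_eq_zero_or_one x with h | h
    · exfalso
      obtain ⟨y, hy⟩ : ∃ y, x = 2 * y := ⟨x / 2, by omega⟩
      rw [hy, hkz] at hxm
      ring_nf at hxm
      omega
    · exact h
  obtain ⟨y, hy⟩ : ∃ y, x = 2 * y + 1 := ⟨x / 2, by omega⟩
  have hmodd : m % 2 = 1 := by
    rcases Int.emod_two_eq_zero_or_one m with h | h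
    · exfalso
      obtain ⟨z, hz⟩ : ∃ z, m = 2 * z := ⟨m / 2, by omega⟩
      have h3 : y * (y + 1) % 2 = 0 := Int.even_iff.1 (Int.even_mul_succ_self y)
      have h4 : 4 * (y * (y + 1)) + 8 * k + 2 = 8 * (z * z) := by
        rw [hy, hkz, hz] at hxm
        linear_combination hxm
      omega
    · exact h
  have hcop : IsCoprime m (2 * x) := by
    have h1 : IsCoprime m 2 := by
      refine ⟨1, -(m / 2), ?_⟩
      omega
    have h3 : IsCoprime m x := by
      rw [Int.isCoprime_iff_gcd_eq_one]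
      by_contra hg
      obtain ⟨q, hq, hqd⟩ := Nat.exists_prime_and_dvd hg
      have hqm : (q : ℤ) ∣ m := (Int.natCast_dvd_natCast.2 hqd).trans (Int.gcd_dvd_left _ _)
      have hqx : (q : ℤ) ∣ x := (Int.natCast_dvd_natCast.2 hqd).trans (Int.gcd_dvd_right _ _)
      have hqq : ((q : ℤ)) ^ 2 ∣ p := by
        have e : (p : ℤ) = 2 * m ^ 2 - x ^ 2 := by linarith
        rw [e]
        exact dvd_sub (Dvd.dvd.mul_left (pow_dvd_pow_of_dvd hqm 2) 2) (pow_dvd_pow_of_dvd hqx 2)
      have hqq' : q ^ 2 ∣ p := by exact_mod_cast hqq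
      have hsqf := hpp.prime.squarefree q (by rwa [← sq])
      rw [Nat.isUnit_iff] at hsqf
      exact hq.one_lt.ne' hsqf
    exact h1.mul_right h3
  obtain ⟨a, b, hab⟩ := hcop
  set α : 𝓞 K := (x : 𝓞 K) + s with hα
  set P : Ideal (𝓞 K) := Ideal.span {2, 1 + s} with hP
  set I : Ideal (𝓞 K) := Ideal.span {(m : 𝓞 K), α} with hI
  have hxO : (x : 𝓞 K) = 2 * (y : 𝓞 K) + 1 := by rw [hy]; push_cast; ring
  have hxmO : (x : 𝓞 K) ^ 2 + (p : 𝓞 K) = 2 * (m : 𝓞 K) ^ 2 := by
    exact_mod_cast congrArg (Int.cast : ℤ → 𝓞 K) hxm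
  have habO : (a : 𝓞 K) * (m : 𝓞 K) + (b : 𝓞 K) * (2 * (x : 𝓞 K)) = 1 := by
    exact_mod_cast congrArg (Int.cast : ℤ → 𝓞 K) hab
  -- P^2 = (2)
  have hPP : P * P = Ideal.span {2} := by
    rw [hP, Ideal.span_pair_mul_span_pair]
    apply le_antisymm
    · rw [Ideal.span_le]
      intro z hz
      simp only [Set.mem_insert_iff, Set.mem_singleton_iff] at hz
      rw [SetLike.mem_coe, Ideal.mem_span_singleton]
      rcases hz with rfl | rfl | rfl | rfl
      · exact ⟨2, rfl⟩
      · exact ⟨1 + s, rfl⟩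
      · exact ⟨1 + s, by ring⟩
      · exact ⟨s - 4 * k, by linear_combination hs + hpO * (-1)⟩
    · rw [Ideal.span_singleton_le_iff_mem]
      set J : Ideal (𝓞 K) := Ideal.span {2 * 2, 2 * (1 + s), (1 + s) * 2, (1 + s) * (1 + s)} with hJ
      have e : (2 : 𝓞 K) = 1 * (2 * (1 + s)) - 1 * ((1 + s) * (1 + s)) - (2 * k) * (2 * 2) := by
        linear_combination hs - hpO * (1)
      have hmem : 1 * (2 * (1 + s)) - 1 * ((1 + s) * (1 + s)) - (2 * k) * (2 * 2) ∈ J := by
        apply sub_mem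
        · apply sub_mem
          · exact Ideal.mul_mem_left _ _ (Ideal.subset_span (by simp))
          · exact Ideal.mul_mem_left _ _ (Ideal.subset_span (by simp))
        · exact Ideal.mul_mem_left _ _ (Ideal.subset_span (by simp))
      exact Eq.mpr (congrArg (fun z => z ∈ J) e) hmem
  -- I^2 P = (α)
  have hβ : (m : 𝓞 K) * (m : 𝓞 K) * (1 + s) = α * ((y : 𝓞 K) * (1 + s) + 4 * k + 1) := by
    have h20 : (2 : 𝓞 K) ≠ 0 := two_ne_zero
    apply mul_left_cancel₀ h20
    rw [hα]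
    linear_combination (-(1 + s)) * hxmO + (1 - (x : 𝓞 K)) * hs + ((x : 𝓞 K) + s) * hpO
      + ((x : 𝓞 K) + s) * (1 + s) * hxO
  have hIIP : I * I * P = Ideal.span {α} := by
    apply le_antisymm
    · rw [Ideal.mul_le]
      intro r hr t ht
      have h3 : ∀ r ∈ I * I, ∀ t ∈ P, r * t ∈ Ideal.span {α} := by
        intro r hr
        rw [hI, Ideal.span_pair_mul_span_pair] at hr
        refine Submodule.span_induction (p := fun r _ => ∀ t ∈ P, r * t ∈ Ideal.span {α})
          ?_ ?_ ?_ ?_ hr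
        · intro z hz t ht
          simp only [Set.mem_insert_iff, Set.mem_singleton_iff] at hz
          rcases hz with rfl | rfl | rfl | rfl
          · rw [hP, Ideal.mem_span_pair] at ht
            obtain ⟨c, d, rfl⟩ := ht
            rw [Ideal.mem_span_singleton]
            refine ⟨c * ((x : 𝓞 K) - s) + d * ((y : 𝓞 K) * (1 + s) + 4 * k + 1), ?_⟩
            have e : (m : 𝓞 K) * (m : 𝓞 K) * (c * 2 + d * (1 + s))
                = c * (2 * (m : 𝓞 K) ^ 2) + d * ((m : 𝓞 K) * (m : 𝓞 K) * (1 + s)) := by ring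
            rw [e, hβ, ← hxmO, hα]
            linear_combination c * hs
          · exact Ideal.mul_mem_right _ _ (Ideal.mem_span_singleton.2 ⟨(m : 𝓞 K), by ring⟩)
          · exact Ideal.mul_mem_right _ _ (Ideal.mem_span_singleton.2 ⟨(m : 𝓞 K), by ring⟩)
          · exact Ideal.mul_mem_right _ _ (Ideal.mem_span_singleton.2 ⟨α, by ring⟩)
        · intro t ht
          rw [zero_mul]; exact Ideal.zero_mem _
        · intro r1 r2 _ _ h1 h2 t ht
          rw [add_mul]
          exact Ideal.add_mem _ (h1 t ht) (h2 t ht)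
        · intro c r1 _ h1 t ht
          rw [smul_eq_mul, mul_assoc]
          exact Ideal.mul_mem_left _ _ (h1 t ht)
      exact h3 r hr t ht
    · rw [Ideal.span_singleton_le_iff_mem]
      have hmI : (m : 𝓞 K) ∈ I := Ideal.subset_span (by simp)
      have hαI : α ∈ I := Ideal.subset_span (by simp)
      have h2P : (2 : 𝓞 K) ∈ P := Ideal.subset_span (by simp)
      have hsP : 1 + s ∈ P := Ideal.subset_span (by simp)
      have hα2 : α * α = 2 * (x : 𝓞 K) * α - 2 * ((m : 𝓞 K) * (m : 𝓞 K)) := by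
        rw [hα]
        linear_combination hs * (1) + hxmO * (-1)
      have hαII : α ∈ I * I := by
        have e : α = a * ((m : 𝓞 K) * α) + b * (α * α) + (2 * b) * ((m : 𝓞 K) * (m : 𝓞 K)) := by
          rw [hα2]
          linear_combination (-α) * habO
        rw [e]
        exact Ideal.add_mem _ (Ideal.add_mem _ (Ideal.mul_mem_left _ _ (Ideal.mul_mem_mul hmI hαI))
          (Ideal.mul_mem_left _ _ (Ideal.mul_mem_mul hαI hαI)))
          (Ideal.mul_mem_left _ _ (Ideal.mul_mem_mul hmI hmI))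
      have e : α = (m : 𝓞 K) * (m : 𝓞 K) * (1 + s) - (y : 𝓞 K) * (α * (1 + s)) - (2 * k) * (α * 2) := by
        rw [hβ]; ring
      rw [e]
      apply sub_mem
      · apply sub_mem
        · exact Ideal.mul_mem_mul (Ideal.mul_mem_mul hmI hmI) hsP
        · exact Ideal.mul_mem_left _ _ (Ideal.mul_mem_mul hαII hsP)
      · exact Ideal.mul_mem_left _ _ (Ideal.mul_mem_mul hαII h2P)
  -- P is not principal
  have hdisc : discr K = -(4 * p : ℤ) := by
    have h3 := Pool.Agent.Y797.FK.part1 h2 p hpp.prime.squarefree s0 hs0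
    rw [h3, if_neg (by omega)]
  have hPnp : ¬ P.IsPrincipal := by
    rintro ⟨γ, hγ⟩
    have hγ' : P = Ideal.span {γ} := hγ
    have h3 := congrArg Ideal.absNorm hPP
    rw [map_mul, hγ', Ideal.absNorm_span_singleton, Ideal.absNorm_span_singleton] at h3
    have h4 : Algebra.norm ℤ (2 : 𝓞 K) = 4 := by
      have := Pool.Agent.TH847.LS.norm_int h2 2
      rw [Int.cast_ofNat] at this
      rw [this]; norm_num
    rw [h4] at h3
    have h5 : (Algebra.norm ℤ γ).natAbs = 2 := by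
      have h6 : (Algebra.norm ℤ γ).natAbs * (Algebra.norm ℤ γ).natAbs = 2 * 2 := by
        rw [h3]; rfl
      exact Nat.mul_self_inj.1 h6
    obtain ⟨h6, M, hM⟩ := Pool.Agent.Y797.FK.quad_eq' h2 γ
    set t := Algebra.trace ℤ (𝓞 K) γ
    rw [hdisc] at hM
    have hN : Algebra.norm ℤ γ = 2 ∨ Algebra.norm ℤ γ = -2 := by omega
    have hM0 : M = 0 := by
      by_contra hM0
      have h7 : 1 ≤ M ^ 2 := by
        have : 0 < M ^ 2 := by positivity
        omega
      have hk1 : (1 : ℤ) ≤ k := by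
        have := Nat.pos_of_ne_zero hk0
        exact_mod_cast this
      rcases hN with h | h <;> rw [h] at hM <;> nlinarith [sq_nonneg t]
    rw [hM0] at hM
    rcases hN with h | h
    · rw [h] at hM
      have h8 : t ^ 2 = 8 := by linarith
      have h9 : t < 3 := by nlinarith
      have h10 : -3 < t := by nlinarith
      interval_cases t <;> omega
    · rw [h] at hM
      nlinarith [sq_nonneg t]
  -- class group
  have hP0 : P ≠ ⊥ := by
    intro h
    rw [h] at hPnp
    exact hPnp bot_isPrincipal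
  have hI0 : I ≠ ⊥ := by
    intro h
    have hmI : (m : 𝓞 K) ∈ I := Ideal.subset_span (by simp)
    rw [h, Ideal.mem_bot] at hmI
    have : m = 0 := by exact_mod_cast hmI
    omega
  set d : ClassGroup (𝓞 K) := ClassGroup.mk0 ⟨P, mem_nonZeroDivisors_of_ne_zero hP0⟩ with hd
  set c : ClassGroup (𝓞 K) := ClassGroup.mk0 ⟨I, mem_nonZeroDivisors_of_ne_zero hI0⟩ with hc
  have hd1 : d ≠ 1 := by
    intro h
    apply hPnp
    exact (ClassGroup.mk0_eq_one_iff _).1 h
  have hdd : d * d = 1 := by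
    rw [hd, ← map_mul, ClassGroup.mk0_eq_one_iff]
    show (P * P).IsPrincipal
    rw [hPP]
    exact ⟨2, rfl⟩
  have hccd : c * c * d = 1 := by
    rw [hd, hc, ← map_mul, ← map_mul, ClassGroup.mk0_eq_one_iff]
    show (I * I * P).IsPrincipal
    rw [hIIP]
    exact ⟨α, rfl⟩
  have hcc : c * c = d := by
    have : c * c * d * d = d := by rw [hccd, one_mul]
    rwa [mul_assoc, hdd, mul_one] at this
  have hord : orderOf c = 2 ^ (1 + 1) := by
    apply orderOf_eq_prime_pow
    · rw [pow_one, sq, hcc]; exact hd1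
    · have : c ^ 2 ^ (1 + 1) = (c * c) * (c * c) := by
        have h6 : c ^ 2 ^ (1 + 1) = c ^ (2 + 2) := rfl
        rw [h6, pow_add, sq]
      rw [this, hcc, hdd]
  have h4 : 4 ∣ Nat.card (ClassGroup (𝓞 K)) := by
    have := orderOf_dvd_natCard c
    rw [hord] at this
    exact this
  rw [Nat.card_eq_fintype_card] at h4
  exact h4

end Pool.Agent.Q23.CN
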