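import Pool.Agent.Helper427.Recip
import Pool.Agent.Q23.CH.PP

/-!
# The quadratic Gauss sum of prime modulus, with its sign
-/

set_option autoImplicit false
set_option linter.unusedSectionVars false
set_option linter.unusedVariables false

namespace Pool.Agent.Q23.CN

open Finset Complex
open Pool.Agent.Helper184.Chapman (chi chi_apply)
open scoped Real

variable {p : ℕ} [Fact p.Prime]

lemma sum_std (hp : p ≠ 2) : ∑ a : ZMod p, (ZMod.stdAddChar (N := p)) a = 0 := by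
  have h := AddChar.sum_mulShift (R' := ℂ) (1 : ZMod p) (ZMod.isPrimitive_stdAddChar p)
  rw [if_neg one_ne_zero] at h
  simpa using h

lemma sum_sq (hp : p ≠ 2) :
    ∑ x : ZMod p, (ZMod.stdAddChar (N := p)) (x ^ 2) = gaussSum (chi p ℂ) (ZMod.stdAddChar (N := p)) := by
  classical
  have h1 : ∑ x : ZMod p, (ZMod.stdAddChar (N := p)) (x ^ 2)
      = ∑ a : ZMod p, ∑ x ∈ univ.filter (fun x : ZMod p => x ^ 2 = a), (ZMod.stdAddChar (N := p)) (x ^ 2) :=
    (Finset.sum_fiberwise univ (fun x : ZMod p => x ^ 2) _).symm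
  rw [h1, gaussSum]
  have h2 : ∀ a : ZMod p, ∑ x ∈ univ.filter (fun x : ZMod p => x ^ 2 = a),
      (ZMod.stdAddChar (N := p)) (x ^ 2) = chi p ℂ a * (ZMod.stdAddChar (N := p)) a
        + (ZMod.stdAddChar (N := p)) a := by
    intro a
    rw [Finset.sum_congr rfl (g := fun _ => (ZMod.stdAddChar (N := p)) a)
      (fun x hx => by rw [(mem_filter.1 hx).2]), Finset.sum_const, nsmul_eq_mul]
    have h3 := quadraticChar_card_sqrts (F := ZMod p) (by rw [ZMod.ringChar_zmod_n]; exact hp) a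
    have h4 : (({x : ZMod p | x ^ 2 = a} : Set (ZMod p)).toFinset) = univ.filter (fun x : ZMod p => x ^ 2 = a) := by
      ext x; simp
    rw [h4] at h3
    have h5 : ((univ.filter (fun x : ZMod p => x ^ 2 = a)).card : ℂ) = chi p ℂ a + 1 := by
      rw [chi_apply]
      exact_mod_cast h3
    rw [h5]; ring
  rw [Finset.sum_congr rfl (fun a _ => h2 a), Finset.sum_add_distrib, sum_std hp, add_zero]

lemma sum_fin (hp : p ≠ 2) : ∑ x : ZMod p, (ZMod.stdAddChar (N := p)) (x ^ 2)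
    = ∑ n : Fin p, cexp (π * I * (((2 : ℕ) : ℂ) * ((n : ℕ) : ℂ) ^ 2 + ((0 : ℤ) : ℂ) * ((n : ℕ) : ℂ)) / (p : ℂ)) := by
  have h1 : ∑ x : ZMod p, (ZMod.stdAddChar (N := p)) (x ^ 2)
      = ∑ n ∈ range p, (ZMod.stdAddChar (N := p)) (((n : ℕ) : ZMod p) ^ 2) := by
    symm
    apply Finset.sum_bij (fun (i : ℕ) _ => (i : ZMod p))
    · intro a _; simp
    · intro a ha b hb hab
      rw [Finset.mem_range] at ha hb
      have := congrArg ZMod.val hab
      rwa [ZMod.val_natCast_of_lt ha, ZMod.val_natCast_of_lt hb] at this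
    · intro b _
      exact ⟨b.val, by simpa using ZMod.val_lt b, by simp⟩
    · intro a _; rfl
  rw [h1, ← Fin.sum_univ_eq_sum_range (fun n => (ZMod.stdAddChar (N := p)) (((n : ℕ) : ZMod p) ^ 2))]
  apply Finset.sum_congr rfl
  intro n _
  have h2 := ZMod.stdAddChar_coe (N := p) (((n : ℕ) : ℤ) ^ 2)
  have h3 : ((((n : ℕ) : ℤ) ^ 2 : ℤ) : ZMod p) = ((n : ℕ) : ZMod p) ^ 2 := by push_cast; rfl
  rw [← h3, h2]
  congr 1
  push_cast
  ring

theorem gauss_eq (hp : p ≠ 2) : gaussSum (chi p ℂ) (ZMod.stdAddChar (N := p))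
    = (Real.sqrt (p / 2) : ℂ) * cexp (π * I / 4) * (1 + cexp (-(π * I * p / 2))) := by
  have : NeZero p := ⟨(Fact.out : p.Prime).ne_zero⟩
  have h := Recip.reciprocity 2 p 0 ⟨(p : ℤ), by push_cast; ring⟩
  rw [← sum_sq hp, sum_fin hp, h, Fin.sum_univ_two]
  simp only [Fin.val_zero, Fin.val_one, Nat.cast_zero, Nat.cast_one, Int.cast_zero]
  have e1 : cexp (-(↑π * I * (0 : ℂ) ^ 2 / (4 * ((2 : ℕ) : ℂ) * (p : ℂ)))) = 1 := by
    rw [zero_pow two_ne_zero]; simp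
  have e2 : cexp (↑π * I * (0 * 0 - (p : ℂ) * 0 ^ 2) / ((2 : ℕ) : ℂ)) = 1 := by simp
  have e3 : (↑π * I * (0 * 1 - (p : ℂ) * 1 ^ 2) / ((2 : ℕ) : ℂ)) = -(π * I * p / 2) := by
    push_cast; ring
  rw [e1, e2, e3, mul_one]
  push_cast
  ring_nf

lemma exp_quarter : cexp (π * I / 4) = (Real.sqrt 2 / 2 : ℝ) + (Real.sqrt 2 / 2 : ℝ) * I := by
  have h : (π * I / 4 : ℂ) = ((π / 4 : ℝ) : ℂ) * I := by push_cast; ring
  rw [h, Complex.exp_mul_I, ← Complex.ofReal_cos, ← Complex.ofReal_sin, Real.cos_pi_div_four,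
    Real.sin_pi_div_four]

lemma sqrt_mul_half : Real.sqrt ((p : ℝ) / 2) * Real.sqrt 2 = Real.sqrt p := by
  rw [← Real.sqrt_mul (by positivity)]
  congr 1
  field_simp

theorem gauss_one (h4 : p % 4 = 1) :
    gaussSum (chi p ℂ) (ZMod.stdAddChar (N := p)) = (Real.sqrt p : ℂ) := by
  have hp : p ≠ 2 := by rintro rfl; omega
  obtain ⟨k, hk⟩ : ∃ k, p = 4 * k + 1 := ⟨p / 4, by omega⟩
  rw [gauss_eq hp, exp_quarter]
  have e1 : cexp (-(π * I * p / 2)) = -I := by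
    have : (-(π * I * p / 2) : ℂ) = (((-k : ℤ)) : ℂ) * (2 * π * I) + (-(π / 2 * I)) := by
      rw [hk]; push_cast; ring
    rw [this, Complex.exp_add, Complex.exp_int_mul_two_pi_mul_I, one_mul, Complex.exp_neg,
      Complex.exp_pi_div_two_mul_I, Complex.inv_I]
  rw [e1, ← sqrt_mul_half (p := p)]
  push_cast
  have hI : I * I = -1 := I_mul_I
  linear_combination (-(Real.sqrt (p / 2) : ℂ) * (Real.sqrt 2 : ℂ) / 2) * hI

theorem gauss_three (h4 : p % 4 = 3) :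
    gaussSum (chi p ℂ) (ZMod.stdAddChar (N := p)) = (Real.sqrt p : ℂ) * I := by
  have hp : p ≠ 2 := by rintro rfl; omega
  obtain ⟨k, hk⟩ : ∃ k, p = 4 * k + 3 := ⟨p / 4, by omega⟩
  rw [gauss_eq hp, exp_quarter]
  have e1 : cexp (-(π * I * p / 2)) = I := by
    have : (-(π * I * p / 2) : ℂ) = (((-k - 1 : ℤ)) : ℂ) * (2 * π * I) + (π / 2 * I) := by
      rw [hk]; push_cast; ring
    rw [this, Complex.exp_add, Complex.exp_int_mul_two_pi_mul_I, one_mul,
      Complex.exp_pi_div_two_mul_I]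
  rw [e1, ← sqrt_mul_half (p := p)]
  push_cast
  have hI : I * I = -1 := I_mul_I
  linear_combination ((Real.sqrt (p / 2) : ℂ) * (Real.sqrt 2 : ℂ) / 2) * hI

end Pool.Agent.Q23.CN
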