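import Pool.Agent.Q23.CN.Lv
import Pool.Agent.Q23.CN.Disc

/-!
# The class number formula for `ℚ(√-p)`, `p ≡ 3 mod 4`
-/

set_option autoImplicit false
set_option linter.unusedSectionVars false
set_option linter.unusedVariables false
set_option linter.style.haveILetI false
set_option synthInstance.maxHeartbeats 400000

namespace Pool.Agent.Q23.CN

open NumberField NumberField.Units NumberField.InfinitePlace Finset Polynomial IntermediateField
open Pool.Agent.Helper184.Chapman (chi chi_apply)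

section

variable {K : Type} [Field K] [NumberField K]

lemma torsionOrder_two (h : ∀ x : torsion K, (x : (𝓞 K)ˣ) = 1 ∨ (x : (𝓞 K)ˣ) = -1) :
    torsionOrder K = 2 := by
  classical
  let := Fintype.ofFinite (torsion K)
  rw [torsionOrder, Nat.card_eq_fintype_card]
  refine (Finset.card_eq_two.2 ⟨1, ⟨-1, neg_one_mem_torsion⟩,
    by simp [← Subtype.coe_ne_coe], Finset.ext fun x ↦ ⟨fun _ ↦ ?_, fun _ ↦ Finset.mem_univ _⟩⟩)
  rw [Finset.mem_insert, Finset.mem_singleton, ← Subtype.val_inj, ← Subtype.val_inj]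
  exact h x

lemma unit_eq (h2 : Module.finrank ℚ K = 2) {p : ℕ} (hp : 5 ≤ p) (hd : discr K = -(p : ℤ))
    (u : (𝓞 K)ˣ) : u = 1 ∨ u = -1 := by
  obtain ⟨h1, m, hm⟩ := Pool.Agent.Y797.FK.quad_eq' h2 (u : 𝓞 K)
  set t := Algebra.trace ℤ (𝓞 K) (u : 𝓞 K) with ht
  have hN : IsUnit (Algebra.norm ℤ (u : 𝓞 K)) := u.isUnit.map (Algebra.norm ℤ)
  set N := Algebra.norm ℤ (u : 𝓞 K) with hNdef
  have hp' : (5 : ℤ) ≤ p := by exact_mod_cast hp
  rw [hd] at hm
  have hm0 : m = 0 := by
    by_contra hm0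
    have h3 : 1 ≤ m ^ 2 := by
      have : 0 < m ^ 2 := by positivity
      omega
    rcases Int.isUnit_iff.1 hN with h | h
    · rw [h] at hm
      nlinarith [sq_nonneg t]
    · rw [h] at hm
      nlinarith [sq_nonneg t]
  rw [hm0] at hm
  have h4 : t ^ 2 - 4 * N = 0 := by rw [hm]; ring
  rw [h4, Int.cast_zero] at h1
  have h5 : 2 * (u : 𝓞 K) = (t : 𝓞 K) := by
    have := pow_eq_zero_iff (two_ne_zero) |>.1 h1
    linear_combination this
  have ht2 : t = 2 ∨ t = -2 := by
    have hN1 : N = 1 := by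
      rcases Int.isUnit_iff.1 hN with h | h
      · exact h
      · rw [h] at h4; nlinarith [sq_nonneg t]
    rw [hN1] at h4
    have : (t - 2) * (t + 2) = 0 := by linear_combination h4
    rcases mul_eq_zero.1 this with h | h
    · left; omega
    · right; omega
  have h20 : (2 : 𝓞 K) ≠ 0 := two_ne_zero
  rcases ht2 with h | h
  · left
    ext
    rw [h] at h5
    have h6 : (u : 𝓞 K) = 1 := mul_left_cancel₀ h20 (by rw [h5]; push_cast; ring)
    rw [h6]; simp
  · right
    ext
    rw [h] at h5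
    have h6 : (u : 𝓞 K) = -1 := mul_left_cancel₀ h20 (by rw [h5]; push_cast; ring)
    rw [h6]; simp

lemma nrReal_zero {p : ℕ} (hp : 0 < p) {x : K} (hx : x ^ 2 = -(p : K)) : nrRealPlaces K = 0 := by
  classical
  rw [nrRealPlaces, Fintype.card_eq_zero_iff]
  refine ⟨fun w => ?_⟩
  have h := congrArg (embedding_of_isReal w.2) hx
  rw [map_pow, map_neg, map_natCast] at h
  have h0 : (0 : ℝ) < p := by exact_mod_cast hp
  nlinarith [sq_nonneg (embedding_of_isReal w.2 x)]

lemma nrComplex_one (h2 : Module.finrank ℚ K = 2) {p : ℕ} (hp : 0 < p) {x : K}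
    (hx : x ^ 2 = -(p : K)) : nrComplexPlaces K = 1 := by
  have h := card_add_two_mul_card_eq_rank K
  rw [nrReal_zero hp hx, h2] at h
  omega

lemma rank_zero (h2 : Module.finrank ℚ K = 2) {p : ℕ} (hp : 0 < p) {x : K}
    (hx : x ^ 2 = -(p : K)) : rank K = 0 := by
  rw [rank, card_eq_nrRealPlaces_add_nrComplexPlaces, nrReal_zero hp hx, nrComplex_one h2 hp hx]

lemma regulator_one (h : rank K = 0) : regulator K = 1 := by
  classical
  obtain ⟨w⟩ : Nonempty (InfinitePlace K) := inferInstance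
  have e : Nonempty ({w' : InfinitePlace K // w' ≠ w} ≃ Fin (rank K)) := by
    refine ⟨Fintype.equivOfCardEq ?_⟩
    rw [Fintype.card_subtype_compl, Fintype.card_fin, rank, Fintype.card_subtype_eq w]
  obtain ⟨e⟩ := e
  rw [regulator_eq_det K w e]
  haveI : IsEmpty {w' : InfinitePlace K // w' ≠ w} := by
    refine ⟨fun x => ?_⟩
    have := (e x).2
    omega
  rw [Matrix.det_isEmpty, abs_one]

theorem residue_imag (h2 : Module.finrank ℚ K = 2) {p : ℕ} (hp : p.Prime) (hp5 : 5 ≤ p)
    (h4 : p % 4 = 3) {x : K}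
    (hx : x ^ 2 = -(p : K)) : dedekindZeta_residue K * Real.sqrt p = Real.pi * classNumber K := by
  have hd : discr K = -(p : ℤ) := by
    apply discr_eq h2 (d := -(p : ℤ)) (Nat.prime_iff_prime_int.1 hp).neg (by omega) _ (s := x)
      (by rw [hx]; push_cast; ring)
    intro q hq
    have h0 : (0 : ℚ) < p := by exact_mod_cast hp.pos
    push_cast at hq
    nlinarith [sq_nonneg q]
  have ht : torsionOrder K = 2 := torsionOrder_two fun y => unit_eq h2 hp5 hd _
  rw [dedekindZeta_residue_def, ht, nrReal_zero hp.pos hx, nrComplex_one h2 hp.pos hx,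
    regulator_one (rank_zero h2 hp.pos hx), hd]
  have h1 : |(((-(p : ℤ) : ℤ)) : ℝ)| = p := by
    push_cast
    rw [abs_neg, abs_of_nonneg (by positivity)]
  have h3 : Real.sqrt p ≠ 0 := by
    rw [Real.sqrt_ne_zero']
    exact_mod_cast hp.pos
  rw [h1]
  push_cast
  field_simp

end

variable {p : ℕ} [Fact p.Prime]

/-- the square root of `χ(-1) p` in the cyclotomic field -/
lemma exists_sqrt (hp : p ≠ 2) (L : Type) [Field L] [NumberField L]
    [IsCyclotomicExtension {p} ℚ L] : ∃ g : L, g ^ 2 = ((quadraticChar (ZMod p) (-1) * p : ℤ) : L) := by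
  haveI : NeZero p := ⟨(Fact.out : p.Prime).ne_zero⟩
  have hζ := IsCyclotomicExtension.zeta_spec p ℚ L
  have hpr := AddChar.zmodChar_primitive_of_primitive_root p hζ
  have h := gaussSum_sq (R := ZMod p) (R' := L) (χ := chi p L) (by
      intro h
      obtain ⟨a, ha⟩ := quadraticChar_exists_neg_one (F := ZMod p) (by rw [ZMod.ringChar_zmod_n]; exact hp)
      have h1 : chi p L a = -1 := by rw [chi_apply, ha]; norm_num
      have ha0 : a ≠ 0 := by
        rintro rfl
        rw [quadraticChar_zero] at ha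
        norm_num at ha
      rw [h, MulChar.one_apply (isUnit_iff_ne_zero.2 ha0)] at h1
      have : (2 : L) = 0 := by linear_combination h1
      exact two_ne_zero this)
    ((quadraticChar_isQuadratic (ZMod p)).comp _) hpr
  refine ⟨_, h.trans ?_⟩
  rw [chi_apply, ZMod.card]
  push_cast
  ring

/-- **the class number formula** -/
theorem classNumber_mul (h4 : p % 4 = 3) (hp5 : 5 ≤ p) (K : Type) [Field K] [NumberField K]
    (h2 : Module.finrank ℚ K = 2) (x : K) (hx : x ^ 2 = -(p : K)) :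
    (classNumber K : ℤ) * p = - ∑ j : ZMod p, quadraticChar (ZMod p) j * (j.val : ℤ) := by
  haveI : NeZero p := ⟨(Fact.out : p.Prime).ne_zero⟩
  have hp2 : p ≠ 2 := by omega
  have hpp : p.Prime := Fact.out
  let L : Type := CyclotomicField p ℚ
  haveI : IsCyclotomicExtension {p} ℚ L := CyclotomicField.isCyclotomicExtension p ℚ
  obtain ⟨g, hg⟩ := exists_sqrt hp2 L
  have hm1 : quadraticChar (ZMod p) (-1) = -1 := by
    rw [quadraticChar_neg_one_iff_not_isSquare, ZMod.exists_sq_eq_neg_one_iff]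
    omega
  rw [hm1] at hg
  have hns : ∀ q : ℚ, q ^ 2 ≠ -(p : ℚ) := by
    intro q hq
    have h0 : (0 : ℚ) < p := by exact_mod_cast hpp.pos
    nlinarith [sq_nonneg q]
  have hg' : g ^ 2 = algebraMap ℚ L (-(p : ℚ)) := by
    rw [hg]; simp
  have hirr : Irreducible (X ^ 2 - C (-(p : ℚ)) : ℚ[X]) :=
    (X_pow_sub_C_irreducible_iff_of_prime Nat.prime_two).2 hns
  have hmon : (X ^ 2 - C (-(p : ℚ)) : ℚ[X]).Monic := monic_X_pow_sub_C _ two_ne_zero
  have hmin : minpoly ℚ g = X ^ 2 - C (-(p : ℚ)) := by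
    refine (minpoly.eq_of_irreducible_of_monic hirr ?_ hmon).symm
    simp [hg']
  have hint : IsIntegral ℚ g := IsIntegral.of_finite ℚ g
  let F : IntermediateField ℚ L := ℚ⟮g⟯
  have hF2 : Module.finrank ℚ F = 2 := by
    rw [IntermediateField.adjoin.finrank hint, hmin, natDegree_X_pow_sub_C]
  let t : F := ⟨g, IntermediateField.mem_adjoin_simple_self ℚ g⟩
  have ht : t ^ 2 = algebraMap ℚ F (-(p : ℚ)) := by
    apply Subtype.ext
    exact hg'
  obtain ⟨e⟩ := exists_equiv (K := K) (F := F) h2 hF2 (-(p : ℚ)) hns x (by rw [hx]; simp) t ht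
  rw [classNumber_eq e]
  have ht' : t ^ 2 = -(p : F) := by rw [ht]; simp
  have hr := residue_imag (K := F) hF2 hpp hp5 h4 ht'
  have hres := residue_eq L hp2 F hF2
  have hL : (dedekindZeta_residue F : ℂ) = LL p := hres
  have h3 := LL_three h4
  rw [← hL] at h3
  have h5 : ((dedekindZeta_residue F * (p * Real.sqrt p) : ℝ) : ℂ)
      = ((- Real.pi * ∑ j : ZMod p, ((quadraticChar (ZMod p) j : ℤ) : ℝ) * (j.val : ℝ) : ℝ) : ℂ) := by
    push_cast
    exact h3
  have h6 := Complex.ofReal_injective h5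
  have h7 : Real.pi * (classNumber F * p) = Real.pi *
      (- ∑ j : ZMod p, ((quadraticChar (ZMod p) j : ℤ) : ℝ) * (j.val : ℝ)) := by
    have h8 : Real.pi * (classNumber F * p) = (dedekindZeta_residue F * Real.sqrt p) * p := by
      rw [hr]; ring
    rw [h8]
    linear_combination h6
  have h8 := mul_left_cancel₀ Real.pi_ne_zero h7
  exact_mod_cast h8

end Pool.Agent.Q23.CN
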