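import Pool.Agent.H916R2.OddChar
import Pool.Agent.Q23.CN.Gs
import Pool.Agent.Q23.CN.Emb

/-!
# The value at one of the `L`-function of the quadratic character
-/

set_option autoImplicit false
set_option linter.unusedSectionVars false
set_option linter.unusedVariables false
set_option linter.style.haveILetI false

namespace Pool.Agent.Q23.CN

open Finset Complex HurwitzZeta ZMod
open Pool.Agent.Helper184.Chapman (chi chi_apply)
open scoped Real

variable {p : ℕ} [Fact p.Prime]

lemma qc_prim (hp : p ≠ 2) : (qc p).IsPrimitive := cond_eq _ (qc_ne_one hp)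

lemma qc_inv : (qc p)⁻¹ = qc p := by
  apply MulChar.ext
  intro a
  rw [MulChar.inv_apply_eq_inv']
  have h : qc p (a : ZMod p) * qc p (a : ZMod p) = 1 := by
    rw [qc_apply, ← Int.cast_mul, ← sq, quadraticChar_sq_one a.ne_zero, Int.cast_one]
  exact (eq_inv_of_mul_eq_one_left h).symm

/-- the Gauss sum -/
noncomputable def tau (p : ℕ) [Fact p.Prime] : ℂ := gaussSum (chi p ℂ) (ZMod.stdAddChar (N := p))

lemma dft_qc (hp : p ≠ 2) (k : ZMod p) : ZMod.dft (fun j => qc p j) k = qc p (-1) * tau p * qc p k := by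
  haveI : NeZero p := ⟨(Fact.out : p.Prime).ne_zero⟩
  have h := (qc_prim hp).fourierTransform_eq_inv_mul_gaussSum k
  have h' : ZMod.dft (fun j => qc p j) k = (qc p)⁻¹ (-k) * gaussSum (qc p) (ZMod.stdAddChar (N := p)) := h
  rw [h', qc_inv, ← neg_one_mul, map_mul, tau]
  have : gaussSum (qc p) (ZMod.stdAddChar (N := p)) = gaussSum (chi p ℂ) (ZMod.stdAddChar (N := p)) := rfl
  rw [this]
  ring

/-- the value at one -/
noncomputable def LL (p : ℕ) [Fact p.Prime] : ℂ :=
  haveI : NeZero p := ⟨(Fact.out : p.Prime).ne_zero⟩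
  DirichletCharacter.LFunction (qc p) 1

theorem tau_mul_LL (hp : p ≠ 2) :
    tau p * LL p = ∑ j : ZMod p, qc p j * expZeta (toAddCircle j) 1 := by
  haveI : NeZero p := ⟨(Fact.out : p.Prime).ne_zero⟩
  have h0 : (fun j : ZMod p => qc p j) 0 = 0 := MulChar.map_zero _
  have hLF := ZMod.LFunction_dft (fun j => qc p j) (s := 1) (Or.inl h0)
  have h1 : ZMod.dft (fun j => qc p j) = fun k => qc p (-1) * tau p * qc p k := by
    funext k; exact dft_qc hp k
  rw [h1] at hLF
  have h2 : ZMod.LFunction (fun k : ZMod p => qc p (-1) * tau p * qc p k) 1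
      = qc p (-1) * tau p * LL p := by
    unfold LL DirichletCharacter.LFunction ZMod.LFunction
    simp only [mul_sum]
    refine sum_congr rfl fun j _ => ?_
    ring
  have h3 : ∑ j : ZMod p, qc p j * expZeta (toAddCircle (-j)) 1
      = qc p (-1) * ∑ j : ZMod p, qc p j * expZeta (toAddCircle j) 1 := by
    rw [← Equiv.sum_comp (Equiv.neg (ZMod p)), mul_sum]
    refine sum_congr rfl fun j _ => ?_
    simp only [Equiv.neg_apply, neg_neg]
    rw [← neg_one_mul j, map_mul]
    ring
  rw [h2, h3] at hLF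
  have h5 : qc p (-1) * qc p (-1) = 1 := by
    rw [← map_mul]; simp
  linear_combination (qc p (-1)) * hLF + (∑ j : ZMod p, qc p j * expZeta (toAddCircle j) 1
    - tau p * LL p) * h5

/-- odd case -/
theorem LL_three (h4 : p % 4 = 3) :
    LL p * ((p : ℂ) * (Real.sqrt p : ℂ)) = - π * ∑ j : ZMod p, qc p j * (j.val : ℂ) := by
  haveI : NeZero p := ⟨(Fact.out : p.Prime).ne_zero⟩
  have hp : p ≠ 2 := by rintro rfl; omega
  have h := tau_mul_LL hp
  have hodd : ∀ j : ZMod p, qc p (-j) = - qc p j := fun j => Pool.Agent.Helper184.Chapman.chi_neg h4 j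
  have h1 : ∑ j : ZMod p, qc p j * expZeta (toAddCircle j) 1
      = - ∑ j : ZMod p, qc p j * expZeta (toAddCircle (-j)) 1 := by
    rw [← Equiv.sum_comp (Equiv.neg (ZMod p)), ← sum_neg_distrib]
    refine sum_congr rfl fun j _ => ?_
    simp only [Equiv.neg_apply]
    rw [hodd]
    ring
  have h2 : 2 * (tau p * LL p) = 2 * I * ∑ j : ZMod p, qc p j * sinZeta (toAddCircle j) 1 := by
    rw [two_mul]
    nth_rewrite 1 [h]
    rw [h, h1]
    rw [← h1]
    nth_rewrite 2 [h1]
    rw [← sub_eq_add_neg, ← sum_sub_distrib, mul_sum]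
    refine sum_congr rfl fun j _ => ?_
    rw [sinZeta_eq, map_neg]
    have hI : (2 : ℂ) * I ≠ 0 := by simp
    field_simp
  have h3 : ∑ j : ZMod p, qc p j * sinZeta (toAddCircle j) 1
      = - (π / p) * ∑ j : ZMod p, qc p j * (j.val : ℂ) := by
    have hsum : ∑ j : ZMod p, qc p j = 0 := MulChar.sum_eq_zero_of_ne_one (qc_ne_one hp)
    have h5 : ∀ j : ZMod p, qc p j * sinZeta (toAddCircle j) 1
        = - (π / p) * (qc p j * (j.val : ℂ)) + (π / 2) * qc p j := by
      intro j
      rw [Pool.Agent.H916R2.sinZeta_toAddCircle]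
      have hpc : (p : ℂ) ≠ 0 := by exact_mod_cast (Fact.out : p.Prime).ne_zero
      by_cases hj : j = 0
      · rw [hj]
        have : qc p 0 = 0 := MulChar.map_zero _
        rw [this]; ring
      · unfold Pool.Agent.H916R2.saw
        rw [if_neg hj]
        push_cast
        field_simp
        ring
    rw [Finset.sum_congr rfl (fun j _ => h5 j), Finset.sum_add_distrib, ← Finset.mul_sum,
      ← Finset.mul_sum, hsum]
    ring
  have ht : tau p = (Real.sqrt p : ℂ) * I := gauss_three h4
  rw [h3, ht] at h2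
  have hpc : (p : ℂ) ≠ 0 := by exact_mod_cast (Fact.out : p.Prime).ne_zero
  have hI : (2 * I : ℂ) ≠ 0 := by simp
  apply mul_left_cancel₀ hI
  have e : (p : ℂ) * (π / p) = π := by field_simp
  linear_combination (p : ℂ) * h2 + (-2 * I * ∑ j : ZMod p, qc p j * (j.val : ℂ)) * e

/-- even case, real part -/
theorem LL_one (h4 : p % 4 = 1) :
    (LL p).re * Real.sqrt p = - ∑ j : ZMod p, ((quadraticChar (ZMod p) j : ℤ) : ℝ) *
      Real.log ‖1 - (ZMod.stdAddChar (N := p)) j‖ := by
  haveI : NeZero p := ⟨(Fact.out : p.Prime).ne_zero⟩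
  have hp : p ≠ 2 := by rintro rfl; omega
  have h := tau_mul_LL hp
  have ht : tau p = (Real.sqrt p : ℂ) := gauss_one h4
  have h1 : ∀ j : ZMod p, (qc p j * expZeta (toAddCircle j) 1).re
      = - (((quadraticChar (ZMod p) j : ℤ) : ℝ) * Real.log ‖1 - (ZMod.stdAddChar (N := p)) j‖) := by
    intro j
    by_cases hj : j = 0
    · rw [hj]
      have : qc p 0 = 0 := MulChar.map_zero _
      rw [this, quadraticChar_zero]
      simp
    · have hz : (ZMod.stdAddChar (N := p)) j = cexp (2 * Real.pi * I * ((j.val / p : ℝ) : ℂ)) := by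
        have h2 := ZMod.stdAddChar_coe (N := p) (j.val : ℤ)
        have h3 : (((j.val : ℤ)) : ZMod p) = j := by simp
        rw [h3] at h2
        rw [h2]
        congr 1
        push_cast
        ring
      have hz1 : (ZMod.stdAddChar (N := p)) j ≠ 1 := by
        intro h5
        have h6 : (ZMod.stdAddChar (N := p)) j = (ZMod.stdAddChar (N := p)) 0 := by
          rw [h5, AddChar.map_zero_eq_one]
        exact hj (ZMod.injective_stdAddChar h6)
      have hx : (((j.val / p : ℝ) : ℝ) : UnitAddCircle) ≠ 0 := by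
        rw [← ZMod.toAddCircle_apply]
        intro h5
        exact hj (ZMod.toAddCircle_inj.1 (h5.trans (map_zero _).symm))
      have h7 := Pool.Agent.H916R2.expZeta_one hz hz1 hx
      rw [ZMod.toAddCircle_apply, h7, qc_apply]
      have : (((quadraticChar (ZMod p) j : ℤ) : ℂ)) = (((quadraticChar (ZMod p) j : ℤ) : ℝ) : ℂ) := by
        push_cast; rfl
      rw [this, mul_neg, Complex.neg_re, Complex.re_ofReal_mul, Complex.log_re]
  have h2 := congrArg Complex.re h
  rw [ht, Complex.re_ofReal_mul, Complex.re_sum, Finset.sum_congr rfl (fun j _ => h1 j),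
    Finset.sum_neg_distrib] at h2
  linarith

end Pool.Agent.Q23.CN
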